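import Pool.Agent.H829R2.RQ.T_STA

/-!
# Determinants of points of a set and Steiner symmetrisation
-/

set_option autoImplicit false
open MeasureTheory Set Module Filter Topology Metric TopologicalSpace
open scoped ENNReal RealInnerProductSpace
open Pool.Agent.Helper481.RH H829RQ

namespace Pool.Agent.U330.Mac

variable {m : ℕ}

/-- the determinant of `m + 1` points of `ℝ × ℝ^m` -/
noncomputable def D (p : Fin (m + 1) → ℝ × (Fin m → ℝ)) : ℝ :=
  Matrix.det (Matrix.of fun i => (Fin.cons (p i).1 (p i).2 : Fin (m + 1) → ℝ))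

/-- the cofactors of the first column -/
noncomputable def cof (x : Fin (m + 1) → (Fin m → ℝ)) (i : Fin (m + 1)) : ℝ :=
  (-1) ^ (i : ℕ) * Matrix.det (Matrix.of fun a => x (i.succAbove a))

theorem D_eq (p : Fin (m + 1) → ℝ × (Fin m → ℝ)) :
    D p = ∑ i, (p i).1 * cof (fun i => (p i).2) i := by
  unfold D
  rw [Matrix.det_succ_column_zero]
  refine Finset.sum_congr rfl fun i _ => ?_
  simp only [Matrix.of_apply, Fin.cons_zero, cof]
  have : (Matrix.of fun i => (Fin.cons (p i).1 (p i).2 : Fin (m + 1) → ℝ)).submatrix i.succAbove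
      Fin.succ = Matrix.of fun a => (p (i.succAbove a)).2 := by
    ext a b
    simp
  rw [this]
  ring

/-- all determinants of points of `K` are at most `A` in absolute value -/
def Bd (A : ℝ) (K : Set (ℝ × (Fin m → ℝ))) : Prop :=
  ∀ p : Fin (m + 1) → ℝ × (Fin m → ℝ), (∀ i, p i ∈ K) → |D p| ≤ A

theorem St_bd {A : ℝ} {K : Set (ℝ × (Fin m → ℝ))} (h : Bd A K) : Bd A (St K) := by
  intro p hp
  choose a b ha hb hab using hp
  have e1 : D p = (D (fun i => (a i, (p i).2)) - D (fun i => (b i, (p i).2))) / 2 := by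
    rw [D_eq, D_eq, D_eq, ← Finset.sum_sub_distrib, Finset.sum_div]
    refine Finset.sum_congr rfl fun i _ => ?_
    simp only [hab i]
    ring
  have h1 := h (fun i => (a i, (p i).2)) ha
  have h2 := h (fun i => (b i, (p i).2)) hb
  rw [e1]
  rw [abs_le] at h1 h2 ⊢
  constructor <;> linarith [h1.1, h1.2, h2.1, h2.2]

/-- the determinant of `m + 1` points of Euclidean space -/
noncomputable def DE (v : Fin (m + 1) → Ed m) : ℝ := Matrix.det (Matrix.of fun i j => v i j)

def BdE (A : ℝ) (K : Set (Ed m)) : Prop :=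
  ∀ v : Fin (m + 1) → Ed m, (∀ i, v i ∈ K) → |DE v| ≤ A

theorem abs_D_coord (b : OrthonormalBasis (Fin (m + 1)) ℝ (Ed m)) (v : Fin (m + 1) → Ed m) :
    |D (fun i => coord b (v i))| = |DE v| := by
  have e1 : (Matrix.of fun i => (Fin.cons (coord b (v i)).1 (coord b (v i)).2 : Fin (m + 1) → ℝ)) =
      (Matrix.of fun i j => v i j) * (Matrix.of fun i j => b j i) := by
    ext i j
    rw [Matrix.mul_apply]
    have h2 : ⟪b j, v i⟫ = ∑ k, v i k * b j k := by
      rw [PiLp.inner_apply]
      refine Finset.sum_congr rfl fun k _ => ?_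
      simp
    simp only [Matrix.of_apply]
    rw [← h2]
    refine Fin.cases ?_ (fun j => ?_) j
    · simp [coord_fst]
    · simp [coord_snd]
  have e2 : (Matrix.of fun i j => b j i).transpose * (Matrix.of fun i j => b j i) =
      (1 : Matrix (Fin (m + 1)) (Fin (m + 1)) ℝ) := by
    ext i j
    rw [Matrix.mul_apply]
    have h2 : ⟪b i, b j⟫ = ∑ k, b j k * b i k := by
      rw [PiLp.inner_apply]
      refine Finset.sum_congr rfl fun k _ => ?_
      simp
    have h3 := orthonormal_iff_ite.1 b.orthonormal i j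
    rw [h2] at h3
    simp only [Matrix.transpose_apply, Matrix.of_apply, Matrix.one_apply]
    rw [← h3]
    exact Finset.sum_congr rfl fun k _ => mul_comm _ _
  have e3 : (Matrix.det (Matrix.of fun i j => b j i : Matrix (Fin (m + 1)) (Fin (m + 1)) ℝ)) ^ 2
      = 1 := by
    have := congrArg Matrix.det e2
    rw [Matrix.det_mul, Matrix.det_transpose, Matrix.det_one] at this
    rw [pow_two]; exact this
  have e4 : |Matrix.det (Matrix.of fun i j => b j i : Matrix (Fin (m + 1)) (Fin (m + 1)) ℝ)| = 1 := by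
    rw [← sq_eq_sq₀ (abs_nonneg _) zero_le_one, sq_abs, e3, one_pow]
  unfold D DE
  rw [e1, Matrix.det_mul, abs_mul, e4, mul_one]

theorem bd_coord {A : ℝ} (b : OrthonormalBasis (Fin (m + 1)) ℝ (Ed m)) {K : Set (Ed m)} :
    Bd A (coord b '' K) ↔ BdE A K := by
  constructor
  · intro h v hv
    rw [← abs_D_coord b]
    exact h _ fun i => ⟨v i, hv i, rfl⟩
  · intro h p hp
    choose v hv hvp using hp
    have : p = fun i => coord b (v i) := funext fun i => (hvp i).symm
    rw [this, abs_D_coord]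
    exact h v hv

theorem SS_bdE {A : ℝ} (b : OrthonormalBasis (Fin (m + 1)) ℝ (Ed m)) {K : Set (Ed m)}
    (h : BdE A K) : BdE A (SS b K) := by
  rw [← bd_coord b, STA_coord]
  exact St_bd ((bd_coord b).2 h)

theorem DE_continuous : Continuous (DE : (Fin (m + 1) → Ed m) → ℝ) := by
  unfold DE
  refine Continuous.matrix_det ?_
  refine continuous_pi fun i => continuous_pi fun j => ?_
  simp only [Matrix.of_apply]
  fun_prop

/-- the class in which the second moment is minimised -/
def C3 (m : ℕ) (R : ℝ) (V : ℝ≥0∞) (A : ℝ) : Set (NonemptyCompacts (Ed m)) :=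
  {L | (L : Set (Ed m)) ⊆ closedBall 0 R ∧ Convex ℝ (L : Set (Ed m)) ∧
    V ≤ volume (L : Set (Ed m)) ∧ BdE A (L : Set (Ed m))}

theorem exists_min3 (R : ℝ) (V : ℝ≥0∞) (A : ℝ) (hne : (C3 m R V A).Nonempty) :
    ∃ L ∈ C3 m R V A, ∀ M ∈ C3 m R V A, mom (L : Set (Ed m)) ≤ mom (M : Set (Ed m)) := by
  have : ProperSpace (Ed m) := FiniteDimensional.proper_real (Ed m)
  set S : Set ℝ≥0∞ := (fun M : NonemptyCompacts (Ed m) => mom (M : Set (Ed m))) '' C3 m R V A
    with hS
  have hSne : S.Nonempty := hne.image _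
  obtain ⟨u, -, hu, huS⟩ := exists_seq_tendsto_sInf hSne (OrderBot.bddBelow S)
  choose L hL hLu using huS
  have hcpt : IsCompact {M : NonemptyCompacts (Ed m) | (M : Set (Ed m)) ⊆ closedBall (0 : Ed m) R} :=
    NonemptyCompacts.isCompact_subsets_of_isCompact (isCompact_closedBall 0 R)
  obtain ⟨K, hK, φ, hφ, hlim⟩ := hcpt.tendsto_subseq (x := L) (fun n => (hL n).1)
  have hdist : Tendsto (fun n => dist (L (φ n)) K) atTop (𝓝 0) := by
    have := tendsto_iff_dist_tendsto_zero.1 hlim
    exact this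
  have hfin : ∀ n, hausdorffEDist (L (φ n) : Set (Ed m)) K ≠ ⊤ := fun n =>
    hausdorffEDist_ne_top_of_nonempty_of_bounded (L (φ n)).nonempty K.nonempty
      (L (φ n)).isCompact.isBounded K.isCompact.isBounded
  -- approximations
  have happ : ∀ δ : ℝ, 0 < δ → ∀ᶠ n in atTop, (∀ x ∈ (K : Set (Ed m)),
      ∃ y ∈ (L (φ n) : Set (Ed m)), dist x y ≤ δ) ∧
      (∀ y ∈ (L (φ n) : Set (Ed m)), ∃ x ∈ (K : Set (Ed m)), dist x y ≤ δ) := by
    intro δ hδ
    filter_upwards [hdist.eventually_lt_const hδ] with n hn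
    rw [NonemptyCompacts.dist_eq] at hn
    constructor
    · intro x hx
      obtain ⟨y, hy, h⟩ := exists_dist_lt_of_hausdorffDist_lt' hx hn (hfin n)
      exact ⟨y, hy, by rw [dist_comm]; exact h.le⟩
    · intro y hy
      obtain ⟨x, hx, h⟩ := exists_dist_lt_of_hausdorffDist_lt hy hn (hfin n)
      exact ⟨x, hx, by rw [dist_comm]; exact h.le⟩
  have hKcl : IsClosed (K : Set (Ed m)) := K.isCompact.isClosed
  -- convexity
  have hKconv : Convex ℝ (K : Set (Ed m)) := by
    intro x hx y hy a b ha hb hab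
    rw [← hKcl.closure_eq, Metric.mem_closure_iff]
    intro ε hε
    obtain ⟨n, h1, h2⟩ := (happ (ε / 4) (by positivity)).exists
    obtain ⟨x', hx', hxx⟩ := h1 x hx
    obtain ⟨y', hy', hyy⟩ := h1 y hy
    obtain ⟨z, hz, hzz⟩ := h2 _ ((hL (φ n)).2.1 hx' hy' ha hb hab)
    refine ⟨z, hz, ?_⟩
    have h3 : dist (a • x + b • y) (a • x' + b • y') ≤ ε / 4 + ε / 4 := by
      refine (dist_add_add_le _ _ _ _).trans ?_
      rw [dist_smul₀, dist_smul₀, Real.norm_eq_abs, Real.norm_eq_abs, abs_of_nonneg ha,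
        abs_of_nonneg hb]
      have ha1 : a ≤ 1 := by linarith
      have hb1 : b ≤ 1 := by linarith
      have := dist_nonneg (x := x) (y := x')
      have := dist_nonneg (x := y) (y := y')
      nlinarith
    have h4 := dist_triangle (a • x + b • y) (a • x' + b • y') z
    rw [dist_comm (a • x' + b • y') z] at h4
    linarith
  -- volume
  have hVK : V ≤ volume (K : Set (Ed m)) := by
    have ht := (tendsto_measure_cthickening_of_isCompact (μ := (volume : Measure (Ed m)))
      K.isCompact).mono_left (nhdsWithin_le_nhds (s := Ioi 0))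
    refine ge_of_tendsto ht ?_
    filter_upwards [self_mem_nhdsWithin] with r hr
    obtain ⟨n, h1, h2⟩ := (happ r hr).exists
    refine (hL (φ n)).2.2.1.trans (measure_mono fun y hy => ?_)
    obtain ⟨x, hx, hxy⟩ := h2 y hy
    exact mem_cthickening_of_dist_le y x r _ hx (by rw [dist_comm]; exact hxy)
  -- determinants
  have hKA : BdE A (K : Set (Ed m)) := by
    intro v hv
    have h1 : ∀ k : ℕ, ∃ w : Fin (m + 1) → Ed m, (∀ i, dist (w i) (v i) ≤ 1 / ((k : ℝ) + 1)) ∧
        |DE w| ≤ A := by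
      intro k
      obtain ⟨n, h1, -⟩ := (happ (1 / ((k : ℝ) + 1)) (by positivity)).exists
      choose w hw hwd using fun i => h1 (v i) (hv i)
      exact ⟨w, fun i => by rw [dist_comm]; exact hwd i, (hL (φ n)).2.2.2 w hw⟩
    choose w hw hwA using h1
    have hwt : Tendsto w atTop (𝓝 v) := by
      rw [tendsto_pi_nhds]
      intro i
      rw [tendsto_iff_dist_tendsto_zero]
      exact squeeze_zero (fun _ => dist_nonneg) (fun k => hw k i) tendsto_one_div_add_atTop_nhds_zero_nat
    have h2 : Tendsto (fun k => |DE (w k)|) atTop (𝓝 |DE v|) :=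
      ((DE_continuous.tendsto v).comp hwt).abs
    exact le_of_tendsto h2 (Eventually.of_forall hwA)
  refine ⟨K, ⟨hK, hKconv, hVK, hKA⟩, fun M hM => ?_⟩
  have hev : ∀ z ∈ interior (K : Set (Ed m)), ∀ᶠ n in atTop, z ∈ (L (φ n) : Set (Ed m)) := by
    intro z hz
    obtain ⟨r, hr, hrs⟩ := Metric.mem_nhds_iff.1 (mem_interior_iff_mem_nhds.1 hz)
    filter_upwards [happ (r / 8) (by positivity)] with n hn
    exact mem_of_close (L (φ n)).isCompact (hL (φ n)).2.1 (L (φ n)).nonempty (δ' := r / 2)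
      (by positivity) (by linarith) hn.1 ((closedBall_subset_ball (by linarith)).trans hrs)
  have hF := lintegral_le_liminf hKconv
    (fun n => (L (φ n)).isCompact.measurableSet) hev
    (f := fun x => ENNReal.ofReal (‖x‖ ^ 2)) (by fun_prop)
  have hlimM : Tendsto (fun n => mom (L (φ n) : Set (Ed m))) atTop (𝓝 (sInf S)) := by
    have h1 : Tendsto (fun n => u (φ n)) atTop (𝓝 (sInf S)) := hu.comp hφ.tendsto_atTop
    refine h1.congr fun n => ?_
    exact (hLu (φ n)).symm
  have h2 : mom (K : Set (Ed m)) ≤ sInf S := by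
    refine hF.trans (le_of_eq ?_)
    exact hlimM.liminf_eq
  exact h2.trans (sInf_le ⟨M, hM, rfl⟩)

theorem min_symm (R : ℝ) (V : ℝ≥0∞) (A : ℝ) (L : NonemptyCompacts (Ed m)) (hV : V ≠ 0)
    (hL : L ∈ C3 m R V A) (hmin : ∀ M ∈ C3 m R V A, mom (L : Set (Ed m)) ≤ mom (M : Set (Ed m)))
    (v : Ed m) (hv : ‖v‖ = 1) : ∀ x ∈ L, Rf v x ∈ L := by
  obtain ⟨b, hb⟩ := exists_basis hv
  obtain ⟨hLR, hLc, hLV, hLA⟩ := hL
  obtain ⟨s1, s2, s3, s4, s5⟩ := t_STA m b (L : Set (Ed m)) L.isCompact hLc L.nonempty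
  set K : Set (ℝ × (Fin m → ℝ)) := coord b '' (L : Set (Ed m)) with hKdef
  have hK : IsCompact K := L.isCompact.image (coord b).continuous
  have hKc : Convex ℝ K := hLc.linear_image (coord b).toLinearEquiv.toLinearMap
  -- the symmetrised body
  let M : NonemptyCompacts (Ed m) := ⟨⟨SS b (L : Set (Ed m)), s1⟩, s3⟩
  have hMdef : (M : Set (Ed m)) = SS b (L : Set (Ed m)) := rfl
  have hcM : coord b '' (M : Set (Ed m)) = St K := by
    rw [hMdef, SS, image_image]
    simp [hKdef]
  have hM : M ∈ C3 m R V A := by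
    refine ⟨?_, ?_, ?_, ?_⟩
    · rw [hMdef]
      exact s5 R hLR
    · rw [hMdef]
      exact s2
    · rw [hMdef, s4]
      exact hLV
    · rw [hMdef]
      exact SS_bdE b hLA
  have h1 := hmin M hM
  have hmomL : mom (L : Set (Ed m)) = ∫⁻ p in K, wt p := by
    rw [hKdef, lintegral_coord_image]
    simp only [wt_coord]
    rfl
  have hmomM : mom (M : Set (Ed m)) = ∫⁻ p in St K, wt p := by
    rw [← hcM, lintegral_coord_image]
    simp only [wt_coord]
    rfl
  rw [hmomL, hmomM] at h1
  have hint : (interior K).Nonempty := by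
    apply interior_coord_nonempty
    apply interior_nonempty_of_volume hLc
    intro h0
    rw [h0] at hLV
    exact hV (le_antisymm hLV zero_le)
  have hfin : ∫⁻ p in K, wt p ≠ ∞ := by
    have hcont : Continuous (fun p : ℝ × (Fin m → ℝ) => p.1 ^ 2 + ∑ i, p.2 i ^ 2) := by fun_prop
    have h3 : IntegrableOn (fun p : ℝ × (Fin m → ℝ) => p.1 ^ 2 + ∑ i, p.2 i ^ 2) K volume :=
      hcont.continuousOn.integrableOn_compact hK
    have h4 := h3.lintegral_lt_top
    exact h4.ne
  have hsym := moment_eq hK hKc hint hfin h1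
  intro x hx
  obtain ⟨y, hy, hye⟩ := hsym (coord b x) ⟨x, hx, rfl⟩
  have : y = Rf v x := by
    apply (coord b).injective
    rw [hye, Rf, map_sub, map_smul, ← hb, coord_basis, ← coord_fst]
    refine Prod.ext ?_ ?_
    · simp; ring
    · simp
  rw [← this]; exact hy

/-- the volume of a convex body is at most `κ A` if the determinants of its points are at most
`A` -/
theorem volume_le_of_bdE {A : ℝ} {K : Set (Ed m)} (hcomp : IsCompact K) (hconv : Convex ℝ K)
    (hA : BdE A K) : volume K ≤ ENNReal.ofReal A * kap (m + 1) := by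
  by_cases hv0 : volume K = 0
  · rw [hv0]; exact zero_le
  have hne : K.Nonempty := by
    by_contra h
    rw [not_nonempty_iff_eq_empty] at h
    exact hv0 (by rw [h]; simp)
  obtain ⟨R, hR⟩ := hcomp.isBounded.subset_closedBall 0
  have hKC : (C3 m R (volume K) A).Nonempty := ⟨⟨⟨K, hcomp⟩, hne⟩, hR, hconv, le_rfl, hA⟩
  obtain ⟨L, hL, hmin⟩ := exists_min3 R (volume K) A hKC
  have hsym := min_symm R (volume K) A L hv0 hL hmin
  obtain ⟨-, hLc, hLV, hLA⟩ := hL
  obtain ⟨ρ, hρ, hLρ⟩ := eq_ball (L := (L : Set (Ed m))) L.isCompact hLc L.nonempty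
    (fun v hv x hx => hsym v hv x hx)
  rw [hLρ, volume_closedBall_eq _ hρ] at hLV
  refine hLV.trans ?_
  gcongr
  rw [hLρ] at hLA
  have h1 := hLA (fun i => EuclideanSpace.single i ρ) (fun i => by
    rw [mem_closedBall_zero_iff, PiLp.norm_single, Real.norm_of_nonneg hρ])
  have h2 : DE (fun i : Fin (m + 1) => EuclideanSpace.single i ρ) = ρ ^ (m + 1) := by
    unfold DE
    have : (Matrix.of fun i j : Fin (m + 1) => (EuclideanSpace.single i ρ : Ed m) j) =
        Matrix.diagonal fun _ => ρ := by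
      ext i j
      by_cases h : i = j
      · subst h; simp
      · simp [h, Ne.symm h]
    rw [this, Matrix.det_diagonal]
    simp
  rw [h2, abs_of_nonneg (by positivity)] at h1
  exact h1

end Pool.Agent.U330.Mac
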