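import Mathlib

/-!
# Planar sets with all skew reflections are ellipses
-/

set_option autoImplicit false
open MeasureTheory Set Module Filter Topology Metric

namespace Pool.Agent.U330.Mac

/-- the determinant of two vectors of the plane -/
def dt (z w : ℝ × ℝ) : ℝ := z.1 * w.2 - z.2 * w.1

/-- the quadratic form of a planar set -/
noncomputable def QB (K : Set (ℝ × ℝ)) (z : ℝ × ℝ) : ℝ := ∫ w in K, dt z w ^ 2

theorem QB_eq {K : Set (ℝ × ℝ)} (hK : IsCompact K) (z : ℝ × ℝ) :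
    QB K z = (∫ w in K, w.2 ^ 2) * z.1 ^ 2 - 2 * (∫ w in K, w.1 * w.2) * (z.1 * z.2) +
      (∫ w in K, w.1 ^ 2) * z.2 ^ 2 := by
  have i1 : IntegrableOn (fun w : ℝ × ℝ => w.2 ^ 2) K :=
    (by fun_prop : Continuous fun w : ℝ × ℝ => w.2 ^ 2).continuousOn.integrableOn_compact hK
  have i2 : IntegrableOn (fun w : ℝ × ℝ => w.1 * w.2) K :=
    (by fun_prop : Continuous fun w : ℝ × ℝ => w.1 * w.2).continuousOn.integrableOn_compact hK
  have i3 : IntegrableOn (fun w : ℝ × ℝ => w.1 ^ 2) K :=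
    (by fun_prop : Continuous fun w : ℝ × ℝ => w.1 ^ 2).continuousOn.integrableOn_compact hK
  have e : ∀ w : ℝ × ℝ, dt z w ^ 2 = z.1 ^ 2 * w.2 ^ 2 - (2 * (z.1 * z.2)) * (w.1 * w.2) +
      z.2 ^ 2 * w.1 ^ 2 := by
    intro w; unfold dt; ring
  unfold QB
  simp only [e]
  have j1 : IntegrableOn (fun w : ℝ × ℝ => z.1 ^ 2 * w.2 ^ 2) K := i1.const_mul _
  have j2 : IntegrableOn (fun w : ℝ × ℝ => (2 * (z.1 * z.2)) * (w.1 * w.2)) K := i2.const_mul _
  have j3 : IntegrableOn (fun w : ℝ × ℝ => z.2 ^ 2 * w.1 ^ 2) K := i3.const_mul _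
  have j12 : IntegrableOn (fun w : ℝ × ℝ => z.1 ^ 2 * w.2 ^ 2 -
      (2 * (z.1 * z.2)) * (w.1 * w.2)) K := j1.sub j2
  rw [integral_add j12 j3, integral_sub j1 j2, integral_const_mul, integral_const_mul,
    integral_const_mul]
  ring

theorem QB_pos {K : Set (ℝ × ℝ)} (hK : IsCompact K) (h0 : (0 : ℝ × ℝ) ∈ interior K) {z : ℝ × ℝ}
    (hz : z ≠ 0) : 0 < QB K z := by
  unfold QB
  have hcont : Continuous fun w : ℝ × ℝ => dt z w ^ 2 := by unfold dt; fun_prop
  rw [setIntegral_pos_iff_support_of_nonneg_ae (Eventually.of_forall fun w => sq_nonneg _)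
    (hcont.continuousOn.integrableOn_compact hK)]
  have hopen : IsOpen ({w : ℝ × ℝ | dt z w ≠ 0} ∩ interior K) := by
    refine IsOpen.inter ?_ isOpen_interior
    have : Continuous fun w : ℝ × ℝ => dt z w := by unfold dt; fun_prop
    exact this.isOpen_preimage _ isOpen_ne
  have hzz : 0 < z.1 ^ 2 + z.2 ^ 2 := by
    by_contra hcon
    have h1 : z.1 ^ 2 = 0 := by nlinarith [sq_nonneg z.1, sq_nonneg z.2]
    have h2 : z.2 ^ 2 = 0 := by nlinarith [sq_nonneg z.1, sq_nonneg z.2]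
    apply hz
    exact Prod.ext (pow_eq_zero_iff two_ne_zero |>.1 h1) (pow_eq_zero_iff two_ne_zero |>.1 h2)
  have hne : ({w : ℝ × ℝ | dt z w ≠ 0} ∩ interior K).Nonempty := by
    have hc : Continuous fun c : ℝ => c • ((-z.2, z.1) : ℝ × ℝ) := by fun_prop
    have h1 : {c : ℝ | c • ((-z.2, z.1) : ℝ × ℝ) ∈ interior K} ∈ 𝓝 (0 : ℝ) :=
      (isOpen_interior.preimage hc).mem_nhds (by
        show (0 : ℝ) • ((-z.2, z.1) : ℝ × ℝ) ∈ interior K
        rw [zero_smul]; exact h0)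
    obtain ⟨δ, hδ, h2⟩ := Metric.mem_nhds_iff.1 h1
    refine ⟨(δ / 2) • ((-z.2, z.1) : ℝ × ℝ), ?_, h2 ?_⟩
    · show dt z _ ≠ 0
      unfold dt
      simp only [Prod.smul_fst, Prod.smul_snd, smul_eq_mul]
      have : z.1 * (δ / 2 * z.1) - z.2 * (δ / 2 * -z.2) = δ / 2 * (z.1 ^ 2 + z.2 ^ 2) := by ring
      rw [this]
      positivity
    · rw [mem_ball, Real.dist_eq, sub_zero, abs_of_pos (by positivity)]
      linarith
  refine lt_of_lt_of_le (hopen.measure_pos volume hne) (measure_mono ?_)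
  rintro w ⟨h1, h2⟩
  refine ⟨?_, interior_subset h2⟩
  simp only [Function.mem_support]
  exact pow_ne_zero 2 h1

/-- the linear functional with coefficients `μ` -/
def fn (μ z : ℝ × ℝ) : ℝ := μ.1 * z.1 + μ.2 * z.2

/-- the linear map `z ↦ z + μ(z) e` -/
def TT (μ e : ℝ × ℝ) : (ℝ × ℝ) →ₗ[ℝ] (ℝ × ℝ) where
  toFun z := z + fn μ z • e
  map_add' x y := by
    unfold fn
    refine Prod.ext ?_ ?_
    · simp; ring
    · simp; ring
  map_smul' c x := by
    unfold fn
    refine Prod.ext ?_ ?_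
    · simp; ring
    · simp; ring

theorem TT_apply (μ e z : ℝ × ℝ) : TT μ e z = z + fn μ z • e := rfl

theorem TT_TT {μ e : ℝ × ℝ} (h : fn μ e = -2) (z : ℝ × ℝ) : TT μ e (TT μ e z) = z := by
  have h1 : fn μ (z + fn μ z • e) = fn μ z + fn μ z * fn μ e := by
    unfold fn; simp; ring
  rw [TT_apply, TT_apply, h1, h]
  refine Prod.ext ?_ ?_
  · simp; ring
  · simp; ring

theorem dt_TT {μ e : ℝ × ℝ} (h : fn μ e = -2) (z w : ℝ × ℝ) :
    dt (TT μ e z) (TT μ e w) = -dt z w := by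
  have h1 : μ.1 * e.1 + μ.2 * e.2 = -2 := h
  rw [TT_apply, TT_apply]
  unfold dt fn
  simp only [Prod.fst_add, Prod.smul_fst, Prod.snd_add, Prod.smul_snd, smul_eq_mul]
  linear_combination (z.1 * w.2 - z.2 * w.1) * h1

theorem TT_measurePreserving {μ e : ℝ × ℝ} (h : fn μ e = -2) :
    MeasurePreserving (TT μ e) (volume : Measure (ℝ × ℝ)) volume := by
  have h1 : (TT μ e).comp (TT μ e) = LinearMap.id := by
    apply LinearMap.ext
    intro z
    exact TT_TT h z
  have h2 : LinearMap.det (TT μ e) * LinearMap.det (TT μ e) = 1 := by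
    rw [← LinearMap.det_comp, h1, LinearMap.det_id]
  have h3 : LinearMap.det (TT μ e) ≠ 0 := by
    intro h0; rw [h0] at h2; simp at h2
  have h4 : |(LinearMap.det (TT μ e))⁻¹| = 1 := by
    have h5 : |LinearMap.det (TT μ e)| ^ 2 = 1 := by rw [sq_abs, pow_two]; exact h2
    have h6 : |LinearMap.det (TT μ e)| = 1 := by
      rw [← sq_eq_sq₀ (abs_nonneg _) zero_le_one, h5, one_pow]
    rw [abs_inv, h6, inv_one]
  refine ⟨(TT μ e).continuous_of_finiteDimensional.measurable, ?_⟩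
  rw [Measure.map_linearMap_addHaar_eq_smul_addHaar _ h3, h4]
  simp

theorem QB_TT {K : Set (ℝ × ℝ)} {μ e : ℝ × ℝ} (h : fn μ e = -2)
    (hT : ∀ z ∈ K, TT μ e z ∈ K) (z : ℝ × ℝ) : QB K (TT μ e z) = QB K z := by
  have hpre : (TT μ e) ⁻¹' K = K := by
    ext w
    constructor
    · intro hw
      have := hT _ hw
      rwa [TT_TT h] at this
    · intro hw; exact hT w hw
  have hemb : MeasurableEmbedding (TT μ e) := by
    have hc : Continuous (TT μ e) := (TT μ e).continuous_of_finiteDimensional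
    let f : (ℝ × ℝ) ≃ₜ (ℝ × ℝ) :=
      { toFun := TT μ e
        invFun := TT μ e
        left_inv := TT_TT h
        right_inv := TT_TT h
        continuous_toFun := hc
        continuous_invFun := hc }
    exact f.measurableEmbedding
  have h1 := (TT_measurePreserving h).setIntegral_preimage_emb hemb (fun w => dt z w ^ 2) K
  rw [hpre] at h1
  unfold QB
  rw [← h1]
  congr 1
  ext w
  have h2 := dt_TT h z (TT μ e w)
  rw [TT_TT h] at h2
  rw [h2]; ring

/-- A compact convex planar set with `0` in its interior which has a skew reflection in every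
direction is an ellipse centred at `0`. -/
theorem planar {K : Set (ℝ × ℝ)} (hK : IsCompact K) (hKc : Convex ℝ K)
    (h0 : (0 : ℝ × ℝ) ∈ interior K)
    (hskew : ∀ e : ℝ × ℝ, e ≠ 0 → ∃ μ : ℝ × ℝ, fn μ e = -2 ∧ ∀ z ∈ K, z + fn μ z • e ∈ K) :
    ∃ a b d : ℝ, (∀ z : ℝ × ℝ, z ≠ 0 → 0 < a * z.1 ^ 2 - 2 * b * (z.1 * z.2) + d * z.2 ^ 2) ∧
      ∀ z : ℝ × ℝ, z ∈ K ↔ a * z.1 ^ 2 - 2 * b * (z.1 * z.2) + d * z.2 ^ 2 ≤ 1 := by
  set a : ℝ := ∫ w in K, w.2 ^ 2 with ha
  set b : ℝ := ∫ w in K, w.1 * w.2 with hb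
  set d : ℝ := ∫ w in K, w.1 ^ 2 with hd
  have hQ : ∀ z, QB K z = a * z.1 ^ 2 - 2 * b * (z.1 * z.2) + d * z.2 ^ 2 := fun z => QB_eq hK z
  have hpos : ∀ z, z ≠ 0 → 0 < QB K z := fun z hz => QB_pos hK h0 hz
  have hK0 : (0 : ℝ × ℝ) ∈ K := interior_subset h0
  have key : ∀ z z' : ℝ × ℝ, QB K z = QB K z' → z ∈ K → z' ∈ K := by
    intro z z' hzz hz
    by_cases hne : z = z'
    · rw [← hne]; exact hz
    set e : ℝ × ℝ := z - z' with he
    have he0 : e ≠ 0 := sub_ne_zero.2 hne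
    obtain ⟨μ, hμ, hT⟩ := hskew e he0
    have h1 := QB_TT (K := K) hμ (fun z hz => hT z hz) (z + z')
    rw [TT_apply, hQ, hQ] at h1
    have h2 := hpos e he0
    rw [hQ] at h2
    rw [hQ, hQ] at hzz
    set c : ℝ := fn μ (z + z') with hc
    have e1 : e.1 = z.1 - z'.1 := rfl
    have e2 : e.2 = z.2 - z'.2 := rfl
    simp only [Prod.fst_add, Prod.smul_fst, Prod.snd_add, Prod.smul_snd, smul_eq_mul] at h1
    have h3 : c ^ 2 * (a * e.1 ^ 2 - 2 * b * (e.1 * e.2) + d * e.2 ^ 2) = 0 := by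
      have h4 : a * ((z.1 + z'.1) * e.1) - b * ((z.1 + z'.1) * e.2 + (z.2 + z'.2) * e.1) +
          d * ((z.2 + z'.2) * e.2) = 0 := by
        rw [e1, e2]
        linear_combination hzz
      linear_combination h1 - 2 * c * h4
    have h5 : c = 0 := by
      rcases mul_eq_zero.1 h3 with h | h
      · exact pow_eq_zero_iff two_ne_zero |>.1 h
      · exact absurd h h2.ne'
    have h6 : fn μ z = -1 := by
      have h7 : 2 * fn μ z = fn μ (z + z') + fn μ e := by
        unfold fn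
        rw [e1, e2]
        simp only [Prod.fst_add, Prod.snd_add]
        ring
      rw [← hc, h5, hμ] at h7
      linarith
    have h8 := hT z hz
    rw [h6] at h8
    have h9 : z + (-1 : ℝ) • e = z' := by
      rw [he]; simp
    rwa [h9] at h8
  obtain ⟨zs, hzs, hmax⟩ := hK.exists_isMaxOn ⟨0, hK0⟩ (f := QB K) (by
    have : Continuous (QB K) := by
      have : QB K = fun z => a * z.1 ^ 2 - 2 * b * (z.1 * z.2) + d * z.2 ^ 2 := funext hQ
      rw [this]; fun_prop
    exact this.continuousOn)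
  have hk : 0 < QB K zs := by
    obtain ⟨w, hw, hw0⟩ : ∃ w ∈ K, w ≠ 0 := by
      have hc : Continuous fun c : ℝ => c • ((1, 0) : ℝ × ℝ) := by fun_prop
      have h1 : {c : ℝ | c • ((1, 0) : ℝ × ℝ) ∈ interior K} ∈ 𝓝 (0 : ℝ) :=
        (isOpen_interior.preimage hc).mem_nhds (by
          show (0 : ℝ) • ((1, 0) : ℝ × ℝ) ∈ interior K
          rw [zero_smul]; exact h0)
      obtain ⟨δ, hδ, h2⟩ := Metric.mem_nhds_iff.1 h1
      refine ⟨(δ / 2) • ((1, 0) : ℝ × ℝ), interior_subset (h2 ?_), ?_⟩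
      · rw [mem_ball, Real.dist_eq, sub_zero, abs_of_pos (by positivity)]
        linarith
      · intro h
        have := congrArg Prod.fst h
        simp at this
        linarith
    exact (hpos w hw0).trans_le (hmax hw)
  have hQs : ∀ (c : ℝ) (z : ℝ × ℝ), QB K (c • z) = c ^ 2 * QB K z := by
    intro c z
    rw [hQ, hQ]
    simp only [Prod.smul_fst, Prod.smul_snd, smul_eq_mul]
    ring
  set k : ℝ := QB K zs with hkdef
  have e0 : ∀ z : ℝ × ℝ, a / k * z.1 ^ 2 - 2 * (b / k) * (z.1 * z.2) + d / k * z.2 ^ 2 =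
      QB K z / k := by
    intro z; rw [hQ]; ring
  refine ⟨a / k, b / k, d / k, ?_, ?_⟩
  · intro z hz
    rw [e0]
    exact div_pos (hpos z hz) hk
  · intro z
    rw [e0, div_le_one hk]
    constructor
    · intro hz; exact hmax hz
    · intro hz
      by_cases hz0 : z = 0
      · rw [hz0]; exact hK0
      have hqz := hpos z hz0
      set c : ℝ := Real.sqrt (k / QB K z) with hc
      have hc2 : c ^ 2 = k / QB K z := Real.sq_sqrt (by positivity)
      have hc1 : 1 ≤ c := by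
        rw [hc, Real.one_le_sqrt, le_div_iff₀ hqz]
        linarith
      have h1 : c • z ∈ K := by
        refine key zs (c • z) ?_ hzs
        rw [hQs, hc2, div_mul_cancel₀ _ hqz.ne']
      have hc0 : 0 < c := by linarith
      have h2 := hKc hK0 h1 (a := 1 - c⁻¹) (b := c⁻¹)
        (by rw [sub_nonneg]; exact inv_le_one_of_one_le₀ hc1) (by positivity) (by ring)
      rwa [smul_zero, zero_add, smul_smul, inv_mul_cancel₀ hc0.ne', one_smul] at h2

end Pool.Agent.U330.Mac
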