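import Pool.Agent.U330.Mac.Mid
import Pool.Agent.U330.Mac.Planar

/-!
# Extremal bodies are ellipsoids
-/

set_option autoImplicit false
open MeasureTheory Set Module Filter Topology Metric TopologicalSpace
open scoped ENNReal RealInnerProductSpace
open Pool.Agent.Helper481.RH H829RQ

namespace Pool.Agent.U330.Mac

variable {m : ℕ}

/-- extremal symmetric bodies of Euclidean space -/
structure ExtrE (A : ℝ) (M : Set (Ed m)) : Prop where
  pos : 0 < A
  compact : IsCompact M
  convex : Convex ℝ M
  symm : ∀ p ∈ M, -p ∈ M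
  int : (0 : Ed m) ∈ interior M
  bd : BdE A M
  vol : ENNReal.ofReal A * kap (m + 1) ≤ volume M

theorem ExtrE.coord {A : ℝ} {M : Set (Ed m)} (h : ExtrE A M)
    (b : OrthonormalBasis (Fin (m + 1)) ℝ (Ed m)) : Extr A (coord b '' M) where
  pos := h.pos
  compact := h.compact.image (Pool.Agent.Helper481.RH.coord b).continuous
  convex := h.convex.linear_image (Pool.Agent.Helper481.RH.coord b).toLinearEquiv.toLinearMap
  symm := by
    rintro _ ⟨x, hx, rfl⟩
    exact ⟨-x, h.symm x hx, by simp⟩
  int := by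
    have h1 : (Pool.Agent.Helper481.RH.coord b).toHomeomorph '' interior M =
        interior ((Pool.Agent.Helper481.RH.coord b).toHomeomorph '' M) :=
      (Pool.Agent.Helper481.RH.coord b).toHomeomorph.image_interior M
    have h2 : (0 : ℝ × (Fin m → ℝ)) ∈ (Pool.Agent.Helper481.RH.coord b).toHomeomorph ''
        interior M := ⟨0, h.int, by simp⟩
    rw [h1] at h2
    exact h2
  bd := (bd_coord b).2 h.bd
  vol := by rw [volume_coord_image]; exact h.vol

theorem skewE {A : ℝ} {M : Set (Ed m)} (h : ExtrE A M) (u w : Ed m) (hu : u ≠ 0) :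
    ∃ c : ℝ, ∀ ρ t : ℝ, ρ • w + t • u ∈ M → ρ • w + (c * ρ - t) • u ∈ M := by
  have hn : 0 < ‖u‖ := norm_pos_iff.2 hu
  have hv : ‖(‖u‖⁻¹ • u)‖ = 1 := by
    rw [norm_smul, norm_inv, norm_norm, inv_mul_cancel₀ hn.ne']
  obtain ⟨b, hb⟩ := exists_basis hv
  have hub : u = ‖u‖ • b 0 := by
    rw [hb, smul_smul, mul_inv_cancel₀ hn.ne', one_smul]
  have hcu : Pool.Agent.Helper481.RH.coord b u = (‖u‖, 0) := by
    conv_lhs => rw [hub]
    rw [map_smul, coord_basis]
    simp
  obtain ⟨c0, hc0⟩ := skew (h.coord b) (Pool.Agent.Helper481.RH.coord b w).2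
  set w1 : ℝ := (Pool.Agent.Helper481.RH.coord b w).1 with hw1
  set θ : Fin m → ℝ := (Pool.Agent.Helper481.RH.coord b w).2 with hθ
  have hx : ∀ ρ t : ℝ, Pool.Agent.Helper481.RH.coord b (ρ • w + t • u) =
      (ρ * w1 + t * ‖u‖, ρ • θ) := by
    intro ρ t
    rw [map_add, map_smul, map_smul, hcu]
    refine Prod.ext ?_ ?_
    · simp [hw1]
    · simp [hθ]
  have hmem : ∀ x : Ed m, x ∈ M ↔ Pool.Agent.Helper481.RH.coord b x ∈
      Pool.Agent.Helper481.RH.coord b '' M := by
    intro x
    exact ((Pool.Agent.Helper481.RH.coord b).injective.mem_set_image).symm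
  refine ⟨(c0 - 2 * w1) / ‖u‖, fun ρ t hm => ?_⟩
  rw [hmem, hx] at hm ⊢
  have h1 := hc0 _ _ hm
  have e : ρ * w1 + ((c0 - 2 * w1) / ‖u‖ * ρ - t) * ‖u‖ = c0 * ρ - (ρ * w1 + t * ‖u‖) := by
    field_simp
    ring
  rw [e]
  exact h1

theorem gauge_sm {M : Set (Ed m)} (hsym : ∀ p ∈ M, -p ∈ M) (c : ℝ) (x : Ed m) :
    gauge M (c • x) = |c| * gauge M x := by
  rcases le_total 0 c with hc | hc
  · rw [gauge_smul_of_nonneg hc, abs_of_nonneg hc, smul_eq_mul]
  · have h1 : c • x = -((-c) • x) := by simp
    rw [h1, gauge_neg hsym, gauge_smul_of_nonneg (by linarith), abs_of_nonpos hc, smul_eq_mul]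

theorem parallelogram {A : ℝ} {M : Set (Ed m)} (h : ExtrE A M) (u w : Ed m) :
    gauge M (u + w) ^ 2 + gauge M (u - w) ^ 2 = 2 * (gauge M u ^ 2 + gauge M w ^ 2) := by
  have hsm := gauge_sm h.symm
  have hnh : M ∈ 𝓝 (0 : Ed m) := mem_interior_iff_mem_nhds.1 h.int
  by_cases hli : LinearIndependent ℝ ![u, w]
  · rw [LinearIndependent.pair_iff] at hli
    let L : (ℝ × ℝ) →ₗ[ℝ] Ed m :=
      { toFun := fun z => z.1 • u + z.2 • w
        map_add' := fun x y => by
          simp only [Prod.fst_add, Prod.snd_add, add_smul]; abel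
        map_smul' := fun c x => by
          simp only [Prod.smul_fst, Prod.smul_snd, smul_eq_mul, mul_smul, smul_add,
            RingHom.id_apply] }
    have hL : ∀ z : ℝ × ℝ, L z = z.1 • u + z.2 • w := fun z => rfl
    have hinj : Function.Injective L := by
      rw [injective_iff_map_eq_zero]
      intro z hz
      obtain ⟨h1, h2⟩ := hli z.1 z.2 hz
      exact Prod.ext h1 h2
    have hLc : Continuous L := L.continuous_of_finiteDimensional
    have hcl : IsClosedEmbedding L := LinearMap.isClosedEmbedding_of_injective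
      (LinearMap.ker_eq_bot.2 hinj)
    set K : Set (ℝ × ℝ) := L ⁻¹' M with hK
    have hKcpt : IsCompact K := hcl.isCompact_preimage h.compact
    have hKc : Convex ℝ K := h.convex.linear_preimage L
    have hK0 : (0 : ℝ × ℝ) ∈ interior K := by
      have h1 : L ⁻¹' interior M ⊆ K := preimage_mono interior_subset
      refine mem_interior.2 ⟨_, h1, isOpen_interior.preimage hLc, ?_⟩
      show L 0 ∈ interior M
      rw [map_zero]; exact h.int
    obtain ⟨a, b, d, hpos, hmemK⟩ := planar hKcpt hKc hK0 (by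
      intro e he
      have hLe : L e ≠ 0 := by
        intro h0
        exact he (hinj (by rw [h0, map_zero]))
      obtain ⟨c, hc⟩ := skewE h (L e) (L (-e.2, e.1)) hLe
      set n : ℝ := e.1 ^ 2 + e.2 ^ 2 with hn
      have hn0 : 0 < n := by
        by_contra hcon
        have h1 : e.1 ^ 2 = 0 := by nlinarith [sq_nonneg e.1, sq_nonneg e.2]
        have h2 : e.2 ^ 2 = 0 := by nlinarith [sq_nonneg e.1, sq_nonneg e.2]
        apply he
        exact Prod.ext (pow_eq_zero_iff two_ne_zero |>.1 h1) (pow_eq_zero_iff two_ne_zero |>.1 h2)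
      refine ⟨((-c * e.2 - 2 * e.1) / n, (c * e.1 - 2 * e.2) / n), ?_, ?_⟩
      · unfold fn
        simp only
        field_simp
        rw [hn]; ring
      · intro z hz
        have h1 : L z = ((z.2 * e.1 - z.1 * e.2) / n) • L (-e.2, e.1) +
            ((e.1 * z.1 + e.2 * z.2) / n) • L e := by
          rw [← map_smul, ← map_smul, ← map_add]
          congr 1
          refine Prod.ext ?_ ?_
          · simp only [Prod.smul_fst, Prod.fst_add, smul_eq_mul]
            field_simp
            rw [hn]; ring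
          · simp only [Prod.smul_snd, Prod.snd_add, smul_eq_mul]
            field_simp
            rw [hn]; ring
        have hz' : L z ∈ M := hz
        rw [h1] at hz'
        have h2 := hc _ _ hz'
        show L _ ∈ M
        have h3 : L (z + fn ((-c * e.2 - 2 * e.1) / n, (c * e.1 - 2 * e.2) / n) z • e) =
            ((z.2 * e.1 - z.1 * e.2) / n) • L (-e.2, e.1) +
            (c * ((z.2 * e.1 - z.1 * e.2) / n) - (e.1 * z.1 + e.2 * z.2) / n) • L e := by
          rw [← map_smul, ← map_smul, ← map_add]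
          congr 1
          unfold fn
          refine Prod.ext ?_ ?_
          · simp only [Prod.smul_fst, Prod.fst_add, smul_eq_mul]
            field_simp
            rw [hn]; ring
          · simp only [Prod.smul_snd, Prod.snd_add, smul_eq_mul]
            field_simp
            rw [hn]; ring
        rw [h3]; exact h2)
    have hg : ∀ z : ℝ × ℝ, gauge M (L z) ^ 2 =
        a * z.1 ^ 2 - 2 * b * (z.1 * z.2) + d * z.2 ^ 2 := by
      intro z
      set q : ℝ := a * z.1 ^ 2 - 2 * b * (z.1 * z.2) + d * z.2 ^ 2 with hq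
      have hq0 : 0 ≤ q := by
        by_cases hz : z = 0
        · rw [hq, hz]; simp
        · exact (hpos z hz).le
      have hiff : ∀ r : ℝ, 0 < r → (gauge M (L z) ≤ r ↔ Real.sqrt q ≤ r) := by
        intro r hr
        have h1 : gauge M (L z) ≤ r ↔ gauge M (L (r⁻¹ • z)) ≤ 1 := by
          rw [map_smul, gauge_smul_of_nonneg (by positivity), smul_eq_mul, inv_mul_le_iff₀ hr,
            mul_one]
        rw [h1, gauge_le_one_iff_mem_closure h.convex hnh, h.compact.isClosed.closure_eq]
        have h2 : L (r⁻¹ • z) ∈ M ↔ r⁻¹ • z ∈ K := Iff.rfl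
        rw [h2, hmemK]
        simp only [Prod.smul_fst, Prod.smul_snd, smul_eq_mul]
        have h3 : a * (r⁻¹ * z.1) ^ 2 - 2 * b * (r⁻¹ * z.1 * (r⁻¹ * z.2)) + d * (r⁻¹ * z.2) ^ 2 =
            q / r ^ 2 := by
          rw [hq]; field_simp
        rw [h3, div_le_one (by positivity), Real.sqrt_le_left hr.le]
      have heq : gauge M (L z) = Real.sqrt q := by
        have hg0 : 0 ≤ gauge M (L z) := gauge_nonneg _
        have hs0 : 0 ≤ Real.sqrt q := Real.sqrt_nonneg _
        apply le_antisymm
        · refine le_of_forall_pos_le_add fun ε hε => ?_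
          exact (hiff _ (by positivity)).2 (by linarith)
        · refine le_of_forall_pos_le_add fun ε hε => ?_
          exact (hiff _ (by positivity)).1 (by linarith)
      rw [heq, Real.sq_sqrt hq0]
    have g1 := hg (1, 1)
    have g2 := hg (1, -1)
    have g3 := hg (1, 0)
    have g4 := hg (0, 1)
    simp only [hL, one_smul, zero_smul, add_zero, zero_add, neg_smul] at g1 g2 g3 g4
    rw [← sub_eq_add_neg] at g2
    rw [g1, g2, g3, g4]
    ring
  · rw [LinearIndependent.pair_iff] at hli
    push Not at hli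
    obtain ⟨s, t, hst, hne⟩ := hli
    by_cases ht : t = 0
    · have hs : s ≠ 0 := fun h0 => hne h0 ht
      rw [ht, zero_smul, add_zero] at hst
      have hu : u = 0 := (smul_eq_zero.1 hst).resolve_left hs
      have hneg : gauge M (-w) = gauge M w := gauge_neg h.symm w
      rw [hu, zero_add, zero_sub, hneg, gauge_zero]
      ring
    · have hw : w = (-s / t) • u := by
        have h1 : t • w = -(s • u) := by
          rw [eq_neg_iff_add_eq_zero, add_comm]; exact hst
        have h2 : w = t⁻¹ • (t • w) := by rw [smul_smul, inv_mul_cancel₀ ht, one_smul]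
        rw [h2, h1, ← neg_smul, smul_smul]
        congr 1
        field_simp
      set l : ℝ := -s / t with hl
      have e1 : u + w = (1 + l) • u := by rw [hw, add_smul, one_smul]
      have e2 : u - w = (1 - l) • u := by rw [hw, sub_smul, one_smul]
      rw [e1, e2, hw, hsm, hsm, hsm, mul_pow, mul_pow, mul_pow, sq_abs, sq_abs, sq_abs]
      ring

/-- the underlying vector space without its norm -/
def Syn (m : ℕ) : Type := Fin (m + 1) → ℝ

noncomputable instance : AddCommGroup (Syn m) := inferInstanceAs (AddCommGroup (Fin (m + 1) → ℝ))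
noncomputable instance : Module ℝ (Syn m) := inferInstanceAs (Module ℝ (Fin (m + 1) → ℝ))

/-- the identity map -/
noncomputable def toSyn : Ed m ≃ₗ[ℝ] Syn m := WithLp.linearEquiv 2 ℝ (Fin (m + 1) → ℝ)

theorem exists_linear (N : Ed m → ℝ) (hadd : ∀ x y, N (x + y) ≤ N x + N y)
    (hsm : ∀ (c : ℝ) x, N (c • x) = |c| * N x) (h0 : ∀ x, N x = 0 → x = 0)
    (hpar : ∀ x y, N (x + y) ^ 2 + N (x - y) ^ 2 = 2 * (N x ^ 2 + N y ^ 2)) :
    ∃ T : Ed m ≃ₗ[ℝ] Ed m, ∀ x, N x = ‖T x‖ := by
  let g : AddGroupNorm (Syn m) :=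
    { toFun := fun x => N (toSyn.symm x)
      map_zero' := by
        have := hsm 0 0
        simpa using this
      add_le' := fun x y => by
        simp only [map_add]; exact hadd _ _
      neg' := fun x => by
        have := hsm (-1) (toSyn.symm x)
        simp only [map_neg]
        simpa using this
      eq_zero_of_map_eq_zero' := fun x hx => by
        have := h0 _ hx
        simpa using this }
  let i1 : NormedAddCommGroup (Syn m) := g.toNormedAddCommGroup
  have hnorm : ∀ x : Syn m, ‖x‖ = N (toSyn.symm x) := fun x => rfl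
  let i2 : NormedSpace ℝ (Syn m) :=
    { norm_smul_le := fun c x => by
        rw [hnorm, hnorm, map_smul, hsm, Real.norm_eq_abs] }
  let i3 : InnerProductSpace ℝ (Syn m) := InnerProductSpace.ofNorm ℝ (by
    intro x y
    have := hpar (toSyn.symm x) (toSyn.symm y)
    rw [hnorm, hnorm, hnorm, hnorm, map_add, map_sub]
    linarith [this])
  have hfin : FiniteDimensional ℝ (Syn m) := Module.Finite.equiv (toSyn (m := m))
  have hrank : finrank ℝ (Syn m) = m + 1 := by
    rw [← LinearEquiv.finrank_eq (toSyn (m := m)), finrank_euclideanSpace, Fintype.card_fin]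
  let b : OrthonormalBasis (Fin (m + 1)) ℝ (Syn m) :=
    (stdOrthonormalBasis ℝ (Syn m)).reindex (finCongr hrank)
  refine ⟨toSyn.trans b.repr.toLinearEquiv, fun x => ?_⟩
  have h1 : ‖b.repr (toSyn x)‖ = ‖toSyn x‖ := b.repr.norm_map _
  have h2 : ‖toSyn x‖ = N x := by rw [hnorm, LinearEquiv.symm_apply_apply]
  rw [← h2, ← h1]
  rfl

/-- extremal symmetric bodies are ellipsoids -/
theorem ellipsoid {A : ℝ} {M : Set (Ed m)} (h : ExtrE A M) :
    ∃ T : Ed m ≃ₗ[ℝ] Ed m, M = T '' closedBall 0 1 := by
  have hnh : M ∈ 𝓝 (0 : Ed m) := mem_interior_iff_mem_nhds.1 h.int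
  have habs : Absorbent ℝ M := absorbent_nhds_zero hnh
  obtain ⟨T, hT⟩ := exists_linear (gauge M) (gauge_add_le h.convex habs)
    (gauge_sm h.symm) (fun x hx => by
      exact (gauge_eq_zero habs ((NormedSpace.isVonNBounded_iff ℝ).2 h.compact.isBounded)).1 hx)
    (parallelogram h)
  refine ⟨T.symm, ?_⟩
  ext x
  have h1 : x ∈ M ↔ gauge M x ≤ 1 := by
    rw [gauge_le_one_iff_mem_closure h.convex hnh, h.compact.isClosed.closure_eq]
  rw [h1, hT]
  constructor
  · intro h2
    exact ⟨T x, by rw [mem_closedBall_zero_iff]; exact h2, T.symm_apply_apply x⟩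
  · rintro ⟨y, hy, rfl⟩
    rw [mem_closedBall_zero_iff] at hy
    rw [T.apply_symm_apply]; exact hy

end Pool.Agent.U330.Mac
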