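import Pool.Agent.U330.Mac.Det

/-!
# Extremal bodies: every boundary point is in an extremal tuple
-/

set_option autoImplicit false
open MeasureTheory Set Module Filter Topology Metric TopologicalSpace
open scoped ENNReal RealInnerProductSpace
open Pool.Agent.Helper481.RH H829RQ

namespace Pool.Agent.U330.Mac

variable {m : ℕ}

theorem D_update_lin (p : Fin (m + 1) → ℝ × (Fin m → ℝ)) (i : Fin (m + 1)) (a b : ℝ)
    (x y : ℝ × (Fin m → ℝ)) :
    D (Function.update p i (a • x + b • y)) =
      a * D (Function.update p i x) + b * D (Function.update p i y) := by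
  have h : ∀ z : ℝ × (Fin m → ℝ), (Matrix.of fun j =>
      (Fin.cons (Function.update p i z j).1 (Function.update p i z j).2 : Fin (m + 1) → ℝ)) =
      (Matrix.of fun j => (Fin.cons (p j).1 (p j).2 : Fin (m + 1) → ℝ)).updateRow i
        (Fin.cons z.1 z.2) := by
    intro z
    ext j k
    by_cases hj : j = i
    · subst hj
      simp
    · simp [hj]
  have e : (Fin.cons (a • x + b • y).1 (a • x + b • y).2 : Fin (m + 1) → ℝ) =
      a • (Fin.cons x.1 x.2 : Fin (m + 1) → ℝ) + b • (Fin.cons y.1 y.2 : Fin (m + 1) → ℝ) := by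
    ext k
    refine Fin.cases ?_ (fun k => ?_) k
    · simp
    · simp
  unfold D
  rw [h, h, h, e, Matrix.det_updateRow_add, Matrix.det_updateRow_smul, Matrix.det_updateRow_smul]

theorem D_smul_row (p : Fin (m + 1) → ℝ × (Fin m → ℝ)) (i : Fin (m + 1)) (a : ℝ)
    (x : ℝ × (Fin m → ℝ)) :
    D (Function.update p i (a • x)) = a * D (Function.update p i x) := by
  have := D_update_lin p i a 0 x 0
  simpa using this

theorem D_eq_zero (p : Fin (m + 1) → ℝ × (Fin m → ℝ)) {i j : Fin (m + 1)} (hij : i ≠ j)
    (h : p i = p j) : D p = 0 := by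
  unfold D
  apply Matrix.det_zero_of_row_eq hij
  show (Fin.cons (p i).1 (p i).2 : Fin (m + 1) → ℝ) = Fin.cons (p j).1 (p j).2
  rw [h]

theorem D_continuous : Continuous (D : (Fin (m + 1) → ℝ × (Fin m → ℝ)) → ℝ) := by
  unfold D
  refine Continuous.matrix_det ?_
  refine continuous_pi fun i => continuous_pi fun j => ?_
  simp only [Matrix.of_apply]
  refine Fin.cases ?_ (fun j => ?_) j
  · simp only [Fin.cons_zero]; fun_prop
  · simp only [Fin.cons_succ]; fun_prop

theorem bd_hull {A : ℝ} {S : Set (ℝ × (Fin m → ℝ))} (h : Bd A S) : Bd A (convexHull ℝ S) := by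
  have key : ∀ s : Finset (Fin (m + 1)), ∀ p : Fin (m + 1) → ℝ × (Fin m → ℝ),
      (∀ i ∈ s, p i ∈ convexHull ℝ S) → (∀ i ∉ s, p i ∈ S) → |D p| ≤ A := by
    intro s
    induction s using Finset.induction_on with
    | empty =>
      intro p _ h2
      exact h p fun i => h2 i (Finset.notMem_empty i)
    | insert i s hi ih =>
      intro p h1 h2
      have hconv : Convex ℝ {x : ℝ × (Fin m → ℝ) | |D (Function.update p i x)| ≤ A} := by
        intro x hx y hy a b ha hb hab
        simp only [mem_ofPred_eq] at hx hy ⊢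
        rw [D_update_lin]
        rw [abs_le] at hx hy ⊢
        constructor
        · nlinarith [hx.1, hy.1]
        · nlinarith [hx.2, hy.2]
      have hsub : S ⊆ {x : ℝ × (Fin m → ℝ) | |D (Function.update p i x)| ≤ A} := by
        intro x hx
        refine ih _ ?_ ?_
        · intro j hj
          have hji : j ≠ i := fun h => hi (h ▸ hj)
          rw [Function.update_of_ne hji]
          exact h1 j (Finset.mem_insert_of_mem hj)
        · intro j hj
          by_cases hji : j = i
          · subst hji
            rw [Function.update_self]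
            exact hx
          · rw [Function.update_of_ne hji]
            exact h2 j (by simp [hji, hj])
      have h3 := convexHull_min hsub hconv (h1 i (Finset.mem_insert_self i s))
      simpa using h3
  intro p hp
  exact key Finset.univ p (fun i _ => hp i) (fun i hi => absurd (Finset.mem_univ i) hi)

/-- the inequality in coordinates -/
theorem volume_le_of_bd {A : ℝ} {K : Set (ℝ × (Fin m → ℝ))} (hcomp : IsCompact K)
    (hconv : Convex ℝ K) (hA : Bd A K) : volume K ≤ ENNReal.ofReal A * kap (m + 1) := by
  let b : OrthonormalBasis (Fin (m + 1)) ℝ (Ed m) := EuclideanSpace.basisFun (Fin (m + 1)) ℝ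
  have e : coord b '' ((coord b).symm '' K) = K := by
    rw [image_image]; simp
  have h1 : IsCompact ((coord b).symm '' K) := hcomp.image (coord b).symm.continuous
  have h2 : Convex ℝ ((coord b).symm '' K) :=
    hconv.linear_image (coord b).symm.toLinearEquiv.toLinearMap
  have h3 : BdE A ((coord b).symm '' K) := by
    rw [← bd_coord b, e]; exact hA
  have h4 := volume_le_of_bdE h1 h2 h3
  rwa [← volume_coord_image b, e] at h4

theorem volume_lt_of_mem {K K' : Set (ℝ × (Fin m → ℝ))} (hK : IsCompact K) (hsub : K ⊆ K')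
    (hK' : Convex ℝ K') (hint : (interior K').Nonempty) {p : ℝ × (Fin m → ℝ)} (hp : p ∈ K')
    (hpK : p ∉ K) : volume K < volume K' := by
  have hcl : p ∈ closure (interior K') := by
    rw [hK'.closure_interior_eq_closure_of_nonempty_interior hint]
    exact subset_closure hp
  rw [_root_.mem_closure_iff] at hcl
  obtain ⟨z, hz1, hz2⟩ := hcl Kᶜ hK.isClosed.isOpen_compl hpK
  have hopen : IsOpen (Kᶜ ∩ interior K') := hK.isClosed.isOpen_compl.inter isOpen_interior
  have hpos : 0 < volume (Kᶜ ∩ interior K') := hopen.measure_pos volume ⟨z, hz1, hz2⟩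
  have h1 : volume K + volume (Kᶜ ∩ interior K') ≤ volume K' := by
    rw [← measure_union ?_ hopen.measurableSet]
    · refine measure_mono (union_subset hsub ?_)
      exact inter_subset_right.trans interior_subset
    · rw [Set.disjoint_left]
      intro x hx hx'
      exact hx'.1 hx
  refine lt_of_lt_of_le ?_ h1
  exact ENNReal.lt_add_right hK.measure_lt_top.ne hpos.ne'

/-- In an extremal body every boundary point belongs to an extremal tuple. -/
theorem exists_tuple {A : ℝ} (hA0 : 0 < A) {K : Set (ℝ × (Fin m → ℝ))} (hcomp : IsCompact K)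
    (hconv : Convex ℝ K) (hint : (0 : ℝ × (Fin m → ℝ)) ∈ interior K) (hA : Bd A K)
    (hvol : ENNReal.ofReal A * kap (m + 1) ≤ volume K) {p : ℝ × (Fin m → ℝ)} (hp : p ∈ K)
    (hpf : ∀ ε : ℝ, 0 < ε → (1 + ε) • p ∉ K) :
    ∃ (i : Fin (m + 1)) (q : Fin (m + 1) → ℝ × (Fin m → ℝ)), (∀ j, q j ∈ K) ∧ q i = p ∧
      |D q| = A := by
  by_contra hcon
  push Not at hcon
  -- the compact set of tuples through `p`
  set T : Set (Fin (m + 1) → ℝ × (Fin m → ℝ)) := {q | (∀ j, q j ∈ K) ∧ ∃ i, q i = p} with hT
  have hTc : IsCompact T := by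
    have h1 : IsCompact {q : Fin (m + 1) → ℝ × (Fin m → ℝ) | ∀ j, q j ∈ K} := by
      have := isCompact_univ_pi (fun _ : Fin (m + 1) => hcomp)
      convert this using 1
      ext q; simp
    have h2 : IsClosed {q : Fin (m + 1) → ℝ × (Fin m → ℝ) | ∃ i, q i = p} := by
      have : {q : Fin (m + 1) → ℝ × (Fin m → ℝ) | ∃ i, q i = p} = ⋃ i, {q | q i = p} := by
        ext q; simp
      rw [this]
      exact isClosed_iUnion_of_finite fun i => isClosed_eq (continuous_apply i) continuous_const
    exact h1.inter_right h2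
  have hTne : T.Nonempty := ⟨fun _ => p, fun _ => hp, 0, rfl⟩
  obtain ⟨q0, hq0, hmax⟩ := hTc.exists_isMaxOn hTne (f := fun q => |D q|)
    (D_continuous.abs.continuousOn)
  set c : ℝ := |D q0| with hc
  have hcA : c < A := by
    obtain ⟨h1, i, h2⟩ := hq0
    exact lt_of_le_of_ne (hA q0 h1) (hcon i q0 h1 h2)
  have hc0 : 0 ≤ c := abs_nonneg _
  obtain ⟨ε, hε, hεc⟩ : ∃ ε : ℝ, 0 < ε ∧ (1 + ε) * c ≤ A := by
    refine ⟨(A - c) / (c + 1), div_pos (by linarith) (by linarith), ?_⟩
    have h1 : (A - c) / (c + 1) * c ≤ A - c := by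
      rw [div_mul_eq_mul_div, div_le_iff₀ (by linarith)]
      nlinarith
    linarith
  set p' : ℝ × (Fin m → ℝ) := (1 + ε) • p with hp'
  have hbd : Bd A (K ∪ {p'}) := by
    intro q hq
    by_cases h2 : ∃ i j, i ≠ j ∧ q i = p' ∧ q j = p'
    · obtain ⟨i, j, hij, h3, h4⟩ := h2
      rw [D_eq_zero q hij (h3.trans h4.symm), abs_zero]
      exact hA0.le
    · push Not at h2
      by_cases h3 : ∃ i, q i = p'
      · obtain ⟨i, hi⟩ := h3
        have h4 : ∀ j, j ≠ i → q j ∈ K := by
          intro j hj
          rcases hq j with h5 | h5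
          · exact h5
          · exact absurd h5 (h2 i j hj.symm hi)
        have e1 : q = Function.update q i ((1 + ε) • p) := by
          rw [← hp', ← hi, Function.update_eq_self]
        rw [e1, D_smul_row, abs_mul, abs_of_pos (by linarith : (0:ℝ) < 1 + ε)]
        have h5 : Function.update q i p ∈ T := by
          refine ⟨fun j => ?_, i, by simp⟩
          by_cases hj : j = i
          · subst hj; simpa using hp
          · rw [Function.update_of_ne hj]; exact h4 j hj
        have h6 : |D (Function.update q i p)| ≤ c := hmax h5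
        calc (1 + ε) * |D (Function.update q i p)| ≤ (1 + ε) * c := by gcongr
          _ ≤ A := hεc
      · push Not at h3
        apply hA
        intro j
        rcases hq j with h5 | h5
        · exact h5
        · exact absurd h5 (h3 j)
  have hbd' := bd_hull hbd
  have hcomp' : IsCompact (convexHull ℝ (K ∪ {p'})) :=
    isCompact_convexHull_union hcomp isCompact_singleton hconv (convex_singleton p')
  have h7 := volume_le_of_bd hcomp' (convex_convexHull ℝ _) hbd'
  have hsub : K ⊆ convexHull ℝ (K ∪ {p'}) := subset_union_left.trans (subset_convexHull ℝ _)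
  have h8 : volume K < volume (convexHull ℝ (K ∪ {p'})) :=
    volume_lt_of_mem hcomp hsub (convex_convexHull ℝ _) ⟨0, interior_mono hsub hint⟩
      (subset_convexHull ℝ _ (Or.inr rfl)) (hpf ε hε)
  exact absurd (hvol.trans_lt h8) (not_lt.2 h7)

end Pool.Agent.U330.Mac
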