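import Pool.Agent.U330.Mac.Ext

/-!
# Extremal bodies: the midpoints of the chords of a direction
-/

set_option autoImplicit false
open MeasureTheory Set Module Filter Topology Metric TopologicalSpace
open scoped ENNReal RealInnerProductSpace
open Pool.Agent.Helper481.RH H829RQ

namespace Pool.Agent.U330.Mac

variable {m : ℕ}

/-- one dimensional lemma -/
theorem one_dim {α σ g : ℝ → ℝ} {p q : ℝ} (hp : 0 < p) (hpq : p ≤ q)
    (h : ∀ r ∈ Icc p q, ∀ ρ ∈ Icc p q, |α ρ - (ρ / r) * α r| ≤ σ r - σ ρ + (ρ - r) * g r) :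
    α q / q = α p / p := by
  have key : ∀ n : ℕ, 0 < n → ∀ k : ℕ, k ≤ n →
      |α (p + k * ((q - p) / n)) / (p + k * ((q - p) / n)) - α p / p| ≤
        ((q - p) / n) / p * (g p - g (p + k * ((q - p) / n))) := by
    intro n hn k
    have hn' : (0 : ℝ) < n := by exact_mod_cast hn
    set e : ℝ := (q - p) / n with he
    have he0 : 0 ≤ e := div_nonneg (by linarith) hn'.le
    have hen : (n : ℝ) * e = q - p := by rw [he]; field_simp
    induction k with
    | zero => intro _; simp
    | succ k ih =>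
      intro hk
      have ih' := ih (by omega)
      have hkn : ((k : ℝ) + 1) ≤ n := by exact_mod_cast hk
      have hk0 : (0 : ℝ) ≤ k := Nat.cast_nonneg k
      set r : ℝ := p + k * e with hr
      have hr' : p + ((k + 1 : ℕ) : ℝ) * e = r + e := by rw [hr]; push_cast; ring
      rw [hr']
      have hre : r + e ≤ q := by
        have : ((k : ℝ) + 1) * e ≤ n * e := by gcongr
        rw [hr]; linarith
      have hrp : p ≤ r := by
        have : 0 ≤ (k : ℝ) * e := by positivity
        rw [hr]; linarith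
      have h1 := h r ⟨hrp, by linarith⟩ (r + e) ⟨by linarith, hre⟩
      have h2 := h (r + e) ⟨by linarith, hre⟩ r ⟨hrp, by linarith⟩
      have h3 := (abs_nonneg _).trans h2
      have h4 : |α (r + e) - (r + e) / r * α r| ≤ e * (g r - g (r + e)) := by
        refine h1.trans ?_
        nlinarith
      have hr0 : 0 < r := by linarith
      have hre0 : 0 < r + e := by linarith
      have h5 : α (r + e) / (r + e) - α r / r = (α (r + e) - (r + e) / r * α r) / (r + e) := by
        field_simp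
      have h6 : |α (r + e) / (r + e) - α r / r| ≤ e / p * (g r - g (r + e)) := by
        rw [h5, abs_div, abs_of_pos hre0, div_le_iff₀ hre0]
        refine h4.trans ?_
        have h7 : 0 ≤ e * (g r - g (r + e)) := (abs_nonneg _).trans h4
        have h8 : e / p * (g r - g (r + e)) * (r + e) =
            (e * (g r - g (r + e))) * ((r + e) / p) := by
          field_simp
        rw [h8]
        have h9 : 1 ≤ (r + e) / p := by rw [le_div_iff₀ hp]; linarith
        nlinarith
      calc |α (r + e) / (r + e) - α p / p|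
          ≤ |α (r + e) / (r + e) - α r / r| + |α r / r - α p / p| := abs_sub_le _ _ _
        _ ≤ e / p * (g r - g (r + e)) + e / p * (g p - g r) := add_le_add h6 ih'
        _ = e / p * (g p - g (r + e)) := by ring
  have h1 : ∀ n : ℕ, 0 < n → (n : ℝ) * |α q / q - α p / p| ≤ (q - p) / p * (g p - g q) := by
    intro n hn
    have hn' : (0 : ℝ) < n := by exact_mod_cast hn
    have h2 := key n hn n le_rfl
    have h3 : p + (n : ℝ) * ((q - p) / n) = q := by field_simp; ring
    rw [h3] at h2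
    calc (n : ℝ) * |α q / q - α p / p| ≤ n * ((q - p) / n / p * (g p - g q)) := by gcongr
      _ = (q - p) / p * (g p - g q) := by field_simp
  by_contra hne
  have hpos : 0 < |α q / q - α p / p| := abs_pos.2 (sub_ne_zero.2 hne)
  obtain ⟨n, hn⟩ := exists_nat_gt ((q - p) / p * (g p - g q) / |α q / q - α p / p|)
  rw [div_lt_iff₀ hpos] at hn
  rcases Nat.eq_zero_or_pos n with h0 | h0
  · subst h0
    have := h1 1 one_pos
    simp only [Nat.cast_zero, zero_mul] at hn
    simp only [Nat.cast_one, one_mul] at this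
    linarith
  · exact absurd (h1 n h0) (not_le.2 hn)

/-- upper end of the chord over `y` -/
noncomputable def hi (K : Set (ℝ × (Fin m → ℝ))) (y : Fin m → ℝ) : ℝ := sSup (fib K y)
/-- lower end of the chord over `y` -/
noncomputable def lo (K : Set (ℝ × (Fin m → ℝ))) (y : Fin m → ℝ) : ℝ := sInf (fib K y)
/-- half length of the chord over `y` -/
noncomputable def hl (K : Set (ℝ × (Fin m → ℝ))) (y : Fin m → ℝ) : ℝ := (hi K y - lo K y) / 2
/-- midpoint of the chord over `y` -/
noncomputable def mi (K : Set (ℝ × (Fin m → ℝ))) (y : Fin m → ℝ) : ℝ := (hi K y + lo K y) / 2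

theorem fib_Icc {K : Set (ℝ × (Fin m → ℝ))} (hK : IsCompact K) (hKc : Convex ℝ K)
    {y : Fin m → ℝ} (hy : y ∈ proj K) : lo K y ≤ hi K y ∧ fib K y = Icc (lo K y) (hi K y) := by
  have hne : (fib K y).Nonempty := by
    obtain ⟨p, hp, rfl⟩ := hy
    exact ⟨p.1, hp⟩
  obtain ⟨p, q, hpq, hp, hq, hI⟩ := fib_eq_Icc hK hKc hne
  have h1 : lo K y = p := by rw [lo, hI, csInf_Icc hpq]
  have h2 : hi K y = q := by rw [hi, hI, csSup_Icc hpq]
  rw [h1, h2]
  exact ⟨hpq, hI⟩

theorem mem_iff {K : Set (ℝ × (Fin m → ℝ))} (hK : IsCompact K) (hKc : Convex ℝ K)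
    {y : Fin m → ℝ} (hy : y ∈ proj K) (t : ℝ) : (t, y) ∈ K ↔ lo K y ≤ t ∧ t ≤ hi K y := by
  have h := (fib_Icc hK hKc hy).2
  have h2 : t ∈ fib K y ↔ t ∈ Icc (lo K y) (hi K y) := by rw [h]
  exact h2

theorem mem_St_iff {K : Set (ℝ × (Fin m → ℝ))} (hK : IsCompact K) (hKc : Convex ℝ K)
    {y : Fin m → ℝ} (hy : y ∈ proj K) (t : ℝ) : (t, y) ∈ St K ↔ |t| ≤ hl K y := by
  have h := fib_St_Icc (fib_Icc hK hKc hy).2
  have h2 : t ∈ fib (St K) y ↔ t ∈ Icc (-((hi K y - lo K y) / 2)) ((hi K y - lo K y) / 2) := by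
    rw [h]
  rw [abs_le]
  exact h2

theorem proj_of_St {K : Set (ℝ × (Fin m → ℝ))} {p : ℝ × (Fin m → ℝ)} (hp : p ∈ St K) :
    p.2 ∈ proj K := by
  obtain ⟨a, b, ha, hb, h⟩ := hp
  exact ⟨(a, p.2), ha, rfl⟩

/-- the inequality for all tuples of points of the projection -/
theorem tuple_ineq {A : ℝ} {K : Set (ℝ × (Fin m → ℝ))} (hK : IsCompact K) (hKc : Convex ℝ K)
    (hA : Bd A K) (y : Fin (m + 1) → (Fin m → ℝ)) (hy : ∀ j, y j ∈ proj K) :
    ∑ j, hl K (y j) * |cof y j| + |∑ j, mi K (y j) * cof y j| ≤ A := by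
  have h1 := hA (fun j => (if 0 ≤ cof y j then hi K (y j) else lo K (y j), y j)) (fun j => by
    rw [mem_iff hK hKc (hy j)]
    have := (fib_Icc hK hKc (hy j)).1
    split_ifs
    · exact ⟨this, le_rfl⟩
    · exact ⟨le_rfl, this⟩)
  have h2 := hA (fun j => (if 0 ≤ cof y j then lo K (y j) else hi K (y j), y j)) (fun j => by
    rw [mem_iff hK hKc (hy j)]
    have := (fib_Icc hK hKc (hy j)).1
    split_ifs
    · exact ⟨le_rfl, this⟩
    · exact ⟨this, le_rfl⟩)
  rw [D_eq] at h1 h2
  simp only at h1 h2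
  have e1 : ∑ j, (if 0 ≤ cof y j then hi K (y j) else lo K (y j)) * cof (fun j => y j) j =
      ∑ j, mi K (y j) * cof y j + ∑ j, hl K (y j) * |cof y j| := by
    rw [← Finset.sum_add_distrib]
    refine Finset.sum_congr rfl fun j _ => ?_
    split_ifs with h
    · rw [abs_of_nonneg h, mi, hl]; ring
    · rw [abs_of_neg (not_le.1 h), mi, hl]; ring
  have e2 : ∑ j, (if 0 ≤ cof y j then lo K (y j) else hi K (y j)) * cof (fun j => y j) j =
      ∑ j, mi K (y j) * cof y j - ∑ j, hl K (y j) * |cof y j| := by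
    rw [← Finset.sum_sub_distrib]
    refine Finset.sum_congr rfl fun j _ => ?_
    split_ifs with h
    · rw [abs_of_nonneg h, mi, hl]; ring
    · rw [abs_of_neg (not_le.1 h), mi, hl]; ring
  rw [e1] at h1
  rw [e2] at h2
  rw [abs_le] at h1 h2
  rcases abs_cases (∑ j, mi K (y j) * cof y j) with h | h
  · rw [h.1]; linarith [h1.2]
  · rw [h.1]; linarith [h2.1]

theorem zero_mem_interior_St {K : Set (ℝ × (Fin m → ℝ))}
    (hint : (0 : ℝ × (Fin m → ℝ)) ∈ interior K) : (0 : ℝ × (Fin m → ℝ)) ∈ interior (St K) := by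
  have h1 : interior K ∩ (fun p : ℝ × (Fin m → ℝ) => (-p.1, p.2)) ⁻¹' interior K ⊆ St K := by
    rintro ⟨t, y⟩ ⟨h1, h2⟩
    refine ⟨t, -t, interior_subset h1, interior_subset h2, ?_⟩
    simp only
    ring
  have h2 : IsOpen (interior K ∩ (fun p : ℝ × (Fin m → ℝ) => (-p.1, p.2)) ⁻¹' interior K) :=
    isOpen_interior.inter (isOpen_interior.preimage (by fun_prop))
  have h3 : ((-(0 : ℝ × (Fin m → ℝ)).1, (0 : ℝ × (Fin m → ℝ)).2) : ℝ × (Fin m → ℝ)) = 0 := by
    refine Prod.ext ?_ rfl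
    simp
  exact mem_interior.2 ⟨_, h1, h2, hint, by
    show ((-(0 : ℝ × (Fin m → ℝ)).1, (0 : ℝ × (Fin m → ℝ)).2) : ℝ × (Fin m → ℝ)) ∈ interior K
    rw [h3]; exact hint⟩

theorem zero_mem_interior_proj {K : Set (ℝ × (Fin m → ℝ))}
    (hint : (0 : ℝ × (Fin m → ℝ)) ∈ interior K) : (0 : Fin m → ℝ) ∈ interior (proj K) := by
  have h1 : (fun y : Fin m → ℝ => ((0 : ℝ), y)) ⁻¹' interior K ⊆ proj K := by
    intro y hy
    exact ⟨(0, y), interior_subset hy, rfl⟩
  exact mem_interior.2 ⟨_, h1, isOpen_interior.preimage (by fun_prop), hint⟩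

theorem cof_update_self (x : Fin (m + 1) → (Fin m → ℝ)) (i : Fin (m + 1)) (y : Fin m → ℝ) :
    cof (Function.update x i y) i = cof x i := by
  unfold cof
  congr 2
  ext a b
  simp [Fin.succAbove_ne]

theorem cof_update_smul (x : Fin (m + 1) → (Fin m → ℝ)) {i j : Fin (m + 1)} (hij : j ≠ i)
    (c : ℝ) : cof (Function.update x i (c • x i)) j = c * cof x j := by
  unfold cof
  obtain ⟨a, ha⟩ := Fin.exists_succAbove_eq hij.symm
  have e : (Matrix.of fun b => Function.update x i (c • x i) (j.succAbove b)) =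
      (Matrix.of fun b => x (j.succAbove b)).updateRow a (c • x i) := by
    ext b k
    by_cases hb : b = a
    · subst hb
      simp [ha]
    · have : j.succAbove b ≠ i := by
        rw [← ha]
        exact fun h => hb (Fin.succAbove_right_injective h)
      simp [hb, this]
  have e2 : (Matrix.of fun b => x (j.succAbove b)).updateRow a (x i) =
      Matrix.of fun b => x (j.succAbove b) := by
    ext b k
    by_cases hb : b = a
    · subst hb
      simp [ha]
    · simp [hb]
  rw [e, Matrix.det_updateRow_smul, e2]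
  ring

/-- the hypotheses on the body -/
structure Extr (A : ℝ) (K : Set (ℝ × (Fin m → ℝ))) : Prop where
  pos : 0 < A
  compact : IsCompact K
  convex : Convex ℝ K
  symm : ∀ p ∈ K, -p ∈ K
  int : (0 : ℝ × (Fin m → ℝ)) ∈ interior K
  bd : Bd A K
  vol : ENNReal.ofReal A * kap (m + 1) ≤ volume K

theorem exists_proj_tuple {A : ℝ} {K : Set (ℝ × (Fin m → ℝ))} (h : Extr A K) {y0 : Fin m → ℝ}
    (hy0 : y0 ∈ interior (proj K)) :
    ∃ (i : Fin (m + 1)) (x : Fin (m + 1) → (Fin m → ℝ)), (∀ j, x j ∈ proj K) ∧ x i = y0 ∧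
      cof x i ≠ 0 ∧ ∑ j, hl K (x j) * |cof x j| = A ∧ ∑ j, mi K (x j) * cof x j = 0 := by
  have hK := h.compact
  have hKc := h.convex
  have hSint := zero_mem_interior_St h.int
  have hSc := St_convex hKc
  have hScpt := St_compact hK
  have hy0' : y0 ∈ proj K := interior_subset hy0
  have hp : (hl K y0, y0) ∈ St K := by
    rw [mem_St_iff hK hKc hy0', abs_of_nonneg]
    have := (fib_Icc hK hKc hy0').1
    rw [hl]; linarith
  -- scaled points are outside
  have hpf : ∀ ε : ℝ, 0 < ε → (1 + ε) • ((hl K y0, y0) : ℝ × (Fin m → ℝ)) ∉ St K := by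
    intro ε hε hmem
    have h1 : ((hl K y0, y0) : ℝ × (Fin m → ℝ)) ∈ interior (St K) := by
      have h2 := hSc.combo_interior_self_mem_interior hSint hmem (a := ε / (1 + ε))
        (b := 1 / (1 + ε)) (by positivity) (by positivity) (by field_simp; ring)
      have h3 : (ε / (1 + ε)) • (0 : ℝ × (Fin m → ℝ)) +
          (1 / (1 + ε)) • ((1 + ε) • ((hl K y0, y0) : ℝ × (Fin m → ℝ))) = (hl K y0, y0) := by
        rw [smul_zero, zero_add, smul_smul, one_div, inv_mul_cancel₀ (by positivity), one_smul]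
      rwa [h3] at h2
    have h4 : {t : ℝ | ((t, y0) : ℝ × (Fin m → ℝ)) ∈ interior (St K)} ∈ 𝓝 (hl K y0) :=
      (isOpen_interior.preimage (by fun_prop : Continuous fun t : ℝ => (t, y0))).mem_nhds h1
    obtain ⟨δ, hδ, h5⟩ := Metric.mem_nhds_iff.1 h4
    have h6 : hl K y0 + δ / 2 ∈ ball (hl K y0) δ := by
      rw [mem_ball, Real.dist_eq, add_sub_cancel_left, abs_of_pos (by positivity)]
      linarith
    have h7 : ((hl K y0 + δ / 2, y0) : ℝ × (Fin m → ℝ)) ∈ St K := interior_subset (h5 h6)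
    rw [mem_St_iff hK hKc hy0'] at h7
    have := le_abs_self (hl K y0 + δ / 2)
    linarith
  obtain ⟨i, q, hq, hqi, hqD⟩ := exists_tuple h.pos hScpt hSc hSint (St_bd h.bd)
    (by rw [volume_St hK hKc]; exact h.vol) hp hpf
  set x : Fin (m + 1) → (Fin m → ℝ) := fun j => (q j).2 with hx
  have hxp : ∀ j, x j ∈ proj K := fun j => proj_of_St (hq j)
  have hxi : x i = y0 := by rw [hx]; simp only; rw [hqi]
  have hqt : ∀ j, |(q j).1| ≤ hl K (x j) := by
    intro j
    have := hq j
    rwa [← mem_St_iff hK hKc (hxp j)]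
  have hineq := tuple_ineq hK hKc h.bd x hxp
  have h8 : A ≤ ∑ j, hl K (x j) * |cof x j| := by
    rw [← hqD, D_eq]
    refine (Finset.abs_sum_le_sum_abs _ _).trans (Finset.sum_le_sum fun j _ => ?_)
    rw [abs_mul]
    exact mul_le_mul_of_nonneg_right (hqt j) (abs_nonneg _)
  have h9 : |∑ j, mi K (x j) * cof x j| ≤ 0 := by linarith
  have h10 : ∑ j, mi K (x j) * cof x j = 0 := abs_nonpos_iff.1 h9
  have h11 : ∑ j, hl K (x j) * |cof x j| = A := by
    have := abs_nonneg (∑ j, mi K (x j) * cof x j)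
    linarith
  refine ⟨i, x, hxp, hxi, ?_, h11, h10⟩
  -- the cofactor does not vanish
  intro hc0
  have h12 : ∀ᶠ c : ℝ in 𝓝 1, c • y0 ∈ proj K := by
    have : Continuous fun c : ℝ => c • y0 := by fun_prop
    have h13 := this.continuousAt (x := 1)
    have h14 : interior (proj K) ∈ 𝓝 ((1 : ℝ) • y0) := by
      rw [one_smul]; exact isOpen_interior.mem_nhds hy0
    filter_upwards [h13 h14] with c hc
    exact interior_subset hc
  obtain ⟨δ, hδ, h15⟩ := Metric.eventually_nhds_iff.1 h12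
  have h16 : (1 + δ / 2) • y0 ∈ proj K := h15 (by
    rw [Real.dist_eq, add_sub_cancel_left, abs_of_pos (by positivity)]; linarith)
  have h17 := tuple_ineq hK hKc h.bd (Function.update x i ((1 + δ / 2) • x i)) (fun j => by
    by_cases hj : j = i
    · subst hj; rw [Function.update_self, hxi]; exact h16
    · rw [Function.update_of_ne hj]; exact hxp j)
  have h18 : ∑ j, hl K (Function.update x i ((1 + δ / 2) • x i) j) *
      |cof (Function.update x i ((1 + δ / 2) • x i)) j| =
      (1 + δ / 2) * ∑ j, hl K (x j) * |cof x j| := by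
    rw [Finset.mul_sum]
    refine Finset.sum_congr rfl fun j _ => ?_
    by_cases hj : j = i
    · subst hj
      rw [cof_update_self, hc0]; simp
    · rw [Function.update_of_ne hj, cof_update_smul x hj, abs_mul, abs_of_pos (by positivity)]
      ring
  rw [h18, h11] at h17
  have := abs_nonneg (∑ j, mi K (Function.update x i ((1 + δ / 2) • x i) j) *
    cof (Function.update x i ((1 + δ / 2) • x i)) j)
  have := h.pos
  nlinarith

theorem ray_ineq {A : ℝ} {K : Set (ℝ × (Fin m → ℝ))} (h : Extr A K) {θ : Fin m → ℝ} {r : ℝ}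
    (hr : 0 < r) (hrθ : r • θ ∈ interior (proj K)) :
    ∃ g : ℝ, ∀ ρ : ℝ, 0 ≤ ρ → ρ • θ ∈ proj K →
      |mi K (ρ • θ) - (ρ / r) * mi K (r • θ)| ≤ hl K (r • θ) - hl K (ρ • θ) + (ρ - r) * g := by
  obtain ⟨i, x, hx, hxi, hc, hΦ, hM⟩ := exists_proj_tuple h hrθ
  set c : ℝ := cof x i with hcdef
  have hc0 : 0 < |c| := abs_pos.2 hc
  refine ⟨-(A / |c| - hl K (r • θ)) / r, fun ρ hρ hρθ => ?_⟩
  have hupd : (ρ / r) • x i = ρ • θ := by
    rw [hxi, smul_smul, div_mul_cancel₀ _ hr.ne']
  have h1 := tuple_ineq h.compact h.convex h.bd (Function.update x i ((ρ / r) • x i)) (fun j => by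
    by_cases hj : j = i
    · subst hj; rw [Function.update_self, hupd]; exact hρθ
    · rw [Function.update_of_ne hj]; exact hx j)
  have hρr : 0 ≤ ρ / r := by positivity
  have e1 : ∑ j, hl K (Function.update x i ((ρ / r) • x i) j) *
      |cof (Function.update x i ((ρ / r) • x i)) j| =
      hl K (ρ • θ) * |c| + (ρ / r) * (A - hl K (r • θ) * |c|) := by
    rw [← hΦ, ← Finset.add_sum_erase _ _ (Finset.mem_univ i), ← Finset.add_sum_erase _
      (fun j => hl K (x j) * |cof x j|) (Finset.mem_univ i), Function.update_self, hupd,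
      ← hupd, cof_update_self, hupd, ← hcdef, hxi]
    congr 1
    rw [add_sub_cancel_left, Finset.mul_sum]
    refine Finset.sum_congr rfl fun j hj => ?_
    have hj' : j ≠ i := Finset.ne_of_mem_erase hj
    rw [Function.update_of_ne hj', ← hupd, cof_update_smul x hj', abs_mul, abs_of_nonneg hρr]
    ring
  have e2 : ∑ j, mi K (Function.update x i ((ρ / r) • x i) j) *
      cof (Function.update x i ((ρ / r) • x i)) j =
      mi K (ρ • θ) * c + (ρ / r) * (0 - mi K (r • θ) * c) := by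
    rw [← hM, ← Finset.add_sum_erase _ _ (Finset.mem_univ i), ← Finset.add_sum_erase _
      (fun j => mi K (x j) * cof x j) (Finset.mem_univ i), Function.update_self, hupd,
      ← hupd, cof_update_self, hupd, ← hcdef, hxi]
    congr 1
    rw [add_sub_cancel_left, Finset.mul_sum]
    refine Finset.sum_congr rfl fun j hj => ?_
    have hj' : j ≠ i := Finset.ne_of_mem_erase hj
    rw [Function.update_of_ne hj', ← hupd, cof_update_smul x hj']
    ring
  rw [e1, e2] at h1
  have e3 : mi K (ρ • θ) * c + (ρ / r) * (0 - mi K (r • θ) * c) =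
      (mi K (ρ • θ) - (ρ / r) * mi K (r • θ)) * c := by ring
  rw [e3, abs_mul] at h1
  have e4 : (|mi K (ρ • θ) - (ρ / r) * mi K (r • θ)|) ≤
      (A - hl K (ρ • θ) * |c| - (ρ / r) * (A - hl K (r • θ) * |c|)) / |c| := by
    rw [le_div_iff₀ hc0]
    linarith
  refine e4.trans (le_of_eq ?_)
  field_simp
  ring

theorem mi_neg {K : Set (ℝ × (Fin m → ℝ))} (hK : IsCompact K) (hKc : Convex ℝ K)
    (hsym : ∀ p ∈ K, -p ∈ K) {y : Fin m → ℝ} (hy : y ∈ proj K) :
    mi K (-y) = -mi K y := by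
  have hy' : -y ∈ proj K := by
    obtain ⟨p, hp, rfl⟩ := hy
    exact ⟨-p, hsym p hp, rfl⟩
  have h1 := mem_iff hK hKc hy
  have h2 := mem_iff hK hKc hy'
  have h3 : ∀ t : ℝ, (lo K y ≤ t ∧ t ≤ hi K y) ↔ (lo K (-y) ≤ -t ∧ -t ≤ hi K (-y)) := by
    intro t
    rw [← h1, ← h2]
    constructor
    · intro h; exact hsym _ h
    · intro h
      have := hsym _ h
      simpa using this
  have hle := (fib_Icc hK hKc hy).1
  have hle' := (fib_Icc hK hKc hy').1
  have a1 := (h3 (lo K y)).1 ⟨le_rfl, hle⟩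
  have a2 := (h3 (hi K y)).1 ⟨hle, le_rfl⟩
  have a3 := (h3 (-lo K (-y))).2 (by rw [neg_neg]; exact ⟨le_rfl, hle'⟩)
  have a4 := (h3 (-hi K (-y))).2 (by rw [neg_neg]; exact ⟨hle', le_rfl⟩)
  have b1 : hi K (-y) = -lo K y := by linarith [a1.2, a4.1]
  have b2 : lo K (-y) = -hi K y := by linarith [a2.1, a3.2]
  rw [mi, mi, b1, b2]; ring

/-- along every line of the projection through the origin the midpoints of the chords are on a
line -/
theorem mi_linear {A : ℝ} {K : Set (ℝ × (Fin m → ℝ))} (h : Extr A K) (θ : Fin m → ℝ) :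
    ∃ c : ℝ, ∀ ρ : ℝ, ρ • θ ∈ interior (proj K) → mi K (ρ • θ) = ρ * c := by
  have hPc : Convex ℝ (proj K) := proj_convex h.convex
  have hPi : Convex ℝ (interior (proj K)) := hPc.interior
  have h0 := zero_mem_interior_proj h.int
  have hpos : ∀ p q : ℝ, 0 < p → p ≤ q → q • θ ∈ interior (proj K) →
      mi K (q • θ) / q = mi K (p • θ) / p := by
    intro p q hp hpq hq
    have hmem : ∀ r ∈ Icc p q, r • θ ∈ interior (proj K) := by
      intro r hr
      have hq0 : 0 < q := by linarith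
      have h1 := hPi h0 hq (a := 1 - r / q) (b := r / q)
        (by rw [sub_nonneg, div_le_one hq0]; exact hr.2) (div_nonneg (by linarith [hr.1]) hq0.le)
        (by ring)
      rwa [smul_zero, zero_add, smul_smul, div_mul_cancel₀ _ hq0.ne'] at h1
    choose! g hg using fun (r : ℝ) (hr : r ∈ Icc p q) =>
      ray_ineq h (lt_of_lt_of_le hp hr.1) (hmem r hr)
    exact one_dim (α := fun ρ => mi K (ρ • θ)) (σ := fun ρ => hl K (ρ • θ)) (g := g) hp hpq
      (fun r hr ρ hρ => hg r hr ρ (by linarith [hρ.1]) (interior_subset (hmem ρ hρ)))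
  -- a positive multiple of `θ` in the interior
  obtain ⟨p0, hp0, hp0θ⟩ : ∃ p : ℝ, 0 < p ∧ p • θ ∈ interior (proj K) := by
    have hc : Continuous fun c : ℝ => c • θ := by fun_prop
    have h1 : {c : ℝ | c • θ ∈ interior (proj K)} ∈ 𝓝 (0 : ℝ) :=
      (isOpen_interior.preimage hc).mem_nhds (by
        show (0 : ℝ) • θ ∈ interior (proj K)
        rw [zero_smul]; exact h0)
    obtain ⟨δ, hδ, h2⟩ := Metric.mem_nhds_iff.1 h1
    refine ⟨δ / 2, by positivity, h2 ?_⟩
    rw [mem_ball, Real.dist_eq, sub_zero, abs_of_pos (by positivity)]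
    linarith
  refine ⟨mi K (p0 • θ) / p0, ?_⟩
  have hpos' : ∀ ρ : ℝ, 0 < ρ → ρ • θ ∈ interior (proj K) →
      mi K (ρ • θ) = ρ * (mi K (p0 • θ) / p0) := by
    intro ρ hρ hρθ
    have h1 : mi K (ρ • θ) / ρ = mi K (p0 • θ) / p0 := by
      rcases le_total p0 ρ with h2 | h2
      · exact hpos p0 ρ hp0 h2 hρθ
      · exact (hpos ρ p0 hρ h2 hp0θ).symm
    rw [← h1]; field_simp
  intro ρ hρθ
  rcases lt_trichotomy ρ 0 with hρ | hρ | hρ
  · have h1 : (-ρ) • θ ∈ interior (proj K) := by
      have hc : Continuous fun y : Fin m → ℝ => -y := continuous_neg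
      have h2 : (fun y : Fin m → ℝ => -y) ⁻¹' interior (proj K) ⊆ proj K := by
        intro y hy
        obtain ⟨p, hp, hpy⟩ := interior_subset hy
        refine ⟨-p, h.symm p hp, ?_⟩
        simp only [Prod.snd_neg, hpy, neg_neg]
      refine mem_interior.2 ⟨_, h2, isOpen_interior.preimage hc, ?_⟩
      simpa using hρθ
    have h3 := hpos' (-ρ) (by linarith) h1
    have h4 := mi_neg h.compact h.convex h.symm (interior_subset h1)
    rw [neg_smul, neg_neg] at h4
    rw [h4, ← neg_smul, h3]; ring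
  · subst hρ
    have h4 := mi_neg h.compact h.convex h.symm (interior_subset h0)
    rw [neg_zero] at h4
    rw [zero_smul, zero_mul]
    linarith
  · exact hpos' ρ hρ hρθ

/-- skew reflections in planes containing the direction of the first axis -/
theorem skew {A : ℝ} {K : Set (ℝ × (Fin m → ℝ))} (h : Extr A K) (θ : Fin m → ℝ) :
    ∃ c : ℝ, ∀ ρ t : ℝ, (t, ρ • θ) ∈ K → (c * ρ - t, ρ • θ) ∈ K := by
  obtain ⟨c, hc⟩ := mi_linear h θ
  refine ⟨2 * c, fun ρ t ht => ?_⟩
  have hPc : Convex ℝ (proj K) := proj_convex h.convex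
  have h0 := zero_mem_interior_proj h.int
  have hmem : ρ • θ ∈ proj K := ⟨_, ht, rfl⟩
  have key : ∀ l : ℝ, l ∈ Ioo (0 : ℝ) 1 → l • ((2 * c * ρ - t, ρ • θ) : ℝ × (Fin m → ℝ)) ∈ K := by
    intro l hl
    have h1 : (l * ρ) • θ ∈ interior (proj K) := by
      have h2 := hPc.combo_interior_self_mem_interior h0 hmem (a := 1 - l) (b := l)
        (by linarith [hl.2]) hl.1.le (by ring)
      rwa [smul_zero, zero_add, smul_smul] at h2
    have h3 : (l * t, (l * ρ) • θ) ∈ K := by
      have h4 := h.convex (interior_subset h.int) ht (a := 1 - l) (b := l)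
        (by linarith [hl.2]) hl.1.le (by ring)
      rw [smul_zero, zero_add] at h4
      simpa [mul_smul] using h4
    have h5 := hc _ h1
    rw [mem_iff h.compact h.convex (interior_subset h1)] at h3
    have h6 : (2 * (l * ρ * c) - l * t, (l * ρ) • θ) ∈ K := by
      rw [mem_iff h.compact h.convex (interior_subset h1)]
      rw [mi] at h5
      constructor <;> linarith [h3.1, h3.2]
    have e : l • ((2 * c * ρ - t, ρ • θ) : ℝ × (Fin m → ℝ)) =
        (2 * (l * ρ * c) - l * t, (l * ρ) • θ) := by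
      refine Prod.ext ?_ ?_
      · simp; ring
      · simp [mul_smul]
    rw [e]; exact h6
  have hcl : IsClosed {l : ℝ | l • ((2 * c * ρ - t, ρ • θ) : ℝ × (Fin m → ℝ)) ∈ K} :=
    h.compact.isClosed.preimage (by fun_prop)
  have h7 : closure (Ioo (0 : ℝ) 1) ⊆ {l : ℝ | l • ((2 * c * ρ - t, ρ • θ) : ℝ × (Fin m → ℝ)) ∈ K} :=
    closure_minimal key hcl
  rw [closure_Ioo (by norm_num)] at h7
  have h8 := h7 (right_mem_Icc.2 zero_le_one)
  simpa using h8

end Pool.Agent.U330.Mac
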